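import Pool.Agent.Helper15.RankTwo.Suff
import Pool.Agent.Helper15.RankTwo.Nec2
import Pool.Agent.Helper15.RankTwo.Group

set_option autoImplicit false

namespace Pool.Agent.Results.MP_b53101_co.RankTwo

/-- The signed sumset `[0,s]_± A`: all sums of `c a • a` over `a ∈ A`, where the integer
coefficients `c a` satisfy `∑_{a ∈ A} |c a| ≤ s`. -/
def signedSumset {G : Type*} [AddCommGroup G] (s : ℕ) (A : Finset G) : Set G :=
  {g | ∃ c : G → ℤ, ∑ a ∈ A, |c a| ≤ (s : ℤ) ∧ ∑ a ∈ A, c a • a = g}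

/-- `φ_±(G,[0,s])`: the smallest size of a subset `A` of `G` with `[0,s]_± A = G`. -/
noncomputable def phi (G : Type*) [AddCommGroup G] (s : ℕ) : ℕ :=
  sInf {k : ℕ | ∃ A : Finset G, A.card = k ∧ signedSumset s A = Set.univ}

/-- The explicit arithmetic condition on `(s, n, m)` which decides the group
`ℤ_n × ℤ_{n m}`. Here `h = ⌊(2s+1)/n⌋`, and the condition says that one of the following holds:
(1) `h` is odd and `2m < h²`;
(2) `h` and `n` are odd, `n (h+1) = 2 (s+1)` and `2m = h² + 1`;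
(3) `h` is even and `2m ≤ h (h-1)`;
(4) `h` and `m` are even, `2m ≤ h²`, and `4 ∣ h` or `m ≡ 2 (mod 4)`. -/
def Admissible (s n m : ℕ) : Prop :=
  let h := (2 * s + 1) / n
  (Odd h ∧ 2 * m < h ^ 2) ∨
  (Odd h ∧ Odd n ∧ n * (h + 1) = 2 * (s + 1) ∧ 2 * m = h ^ 2 + 1) ∨
  (Even h ∧ 2 * m ≤ h * (h - 1)) ∨
  (Even h ∧ Even m ∧ 2 * m ≤ h ^ 2 ∧ (4 ∣ h ∨ m % 4 = 2))

open Helper15.RankTwo in
theorem good_of_admissible {s n m : ℕ} (hn : 2 ≤ n) (hm : 0 < m) (H : Admissible s n m) :
    Good s n m := by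
  unfold Admissible at H
  obtain ⟨h, hh⟩ : ∃ h, h = (2 * s + 1) / n := ⟨_, rfl⟩
  rw [← hh] at H
  have hs : n * h ≤ 2 * s + 1 := by rw [hh]; exact Nat.mul_div_le _ _
  rcases H with ⟨⟨k, hk⟩, h1⟩ | ⟨⟨k, hk⟩, hn2, h1, h2⟩ | ⟨⟨k, hk⟩, h1⟩ | ⟨⟨k, hk⟩, hm2, h1, h2⟩
  · refine good_family1 hn hm k h (by omega) ?_ hs
    rw [← hk, ← pow_two]
    exact h1.le
  · refine good_perfect k (Nat.odd_iff.1 hn2) ?_ ?_
    · have : h ^ 2 + 1 = 2 * (2 * k ^ 2 + 2 * k + 1) := by rw [hk]; ring
      omega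
    · have : n * (h + 1) = 2 * (n * (k + 1)) := by rw [hk]; ring
      omega
  · rcases Nat.eq_zero_or_pos k with h0 | h0
    · rw [hk, h0] at h1
      omega
    · obtain ⟨κ, rfl⟩ : ∃ κ, k = κ + 1 := ⟨k - 1, by omega⟩
      refine good_family1 hn hm κ h (by omega) ?_ hs
      have : h - 1 = 2 * κ + 1 := by omega
      rw [this] at h1
      exact h1
  · have hhk : h = 2 * k := by omega
    refine good_family2 hn hm k ?_ ?_ (by rw [← hhk]; exact hs)
    · have : h ^ 2 = 2 * (2 * k ^ 2) := by rw [hhk]; ring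
      omega
    · have hm3 : m % 2 = 0 := Nat.even_iff.1 hm2
      rcases Nat.mod_two_eq_zero_or_one k with hk2 | hk2
      · exact Or.inl ⟨hk2, hm3⟩
      · right
        refine ⟨hk2, ?_⟩
        rcases h2 with h2 | h2
        · omega
        · exact h2

open Helper15.RankTwo in
theorem admissible_of_cover {s n m : ℕ} (hn : 2 ≤ n) (hm : 0 < m) {u v : ℤ}
    (hgen : ∃ x y : ℤ, (m : ℤ) ∣ u * x + v * y - 1)
    (hcov : ∀ X Y : ℤ, ∃ p q : ℤ, (m : ℤ) ∣ u * p + v * q ∧ |X - n * p| + |Y - n * q| ≤ s) :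
    Admissible s n m := by
  unfold Admissible
  obtain ⟨h, hh⟩ : ∃ h, h = (2 * s + 1) / n := ⟨_, rfl⟩
  rw [← hh]
  have hs : 2 * s + 1 < n * (h + 1) := by
    rw [hh]; exact Nat.lt_mul_div_succ _ (by omega)
  rcases Nat.even_or_odd' h with ⟨k, hk | hk⟩
  · rw [hk] at hs
    rcases nec_even hm hn hgen hcov hs with h1 | ⟨h1, h2⟩
    · right; right; left
      refine ⟨⟨k, by omega⟩, ?_⟩
      have : h * (h - 1) = 2 * ((2 * k - 1) * k) := by rw [hk]; ring
      omega
    · right; right; right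
      have e1 : h ^ 2 = 2 * (2 * k * k) := by rw [hk]; ring
      refine ⟨⟨k, by omega⟩, Nat.even_iff.2 (by omega), by omega, ?_⟩
      rcases h2 with ⟨h3, h4⟩ | ⟨h3, h4⟩
      · left; omega
      · right; exact h4
  · rw [hk] at hs
    rcases nec_odd hm hn hgen hcov hs with h1 | ⟨h1, h2, h3⟩
    · left
      refine ⟨⟨k, hk⟩, ?_⟩
      rw [hk]; exact h1
    · right; left
      refine ⟨⟨k, hk⟩, Nat.odd_iff.2 h1, ?_, ?_⟩
      · rw [hk]; exact h2
      · rw [hk]; exact h3

/-- Complete answer: the rank two group `G ≅ ℤ_{n₁} × ℤ_{n₂}` (`2 ≤ n₁ ∣ n₂`) satisfies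
`φ_±(G,[0,s]) = 2` if and only if the arithmetic condition `Admissible s n₁ (n₂ / n₁)` holds. -/
theorem result (s n₁ n₂ : ℕ) (h₁ : 2 ≤ n₁) (h₂ : n₁ ∣ n₂) (h₃ : 0 < n₂)
    (G : Type*) [AddCommGroup G] (e : G ≃+ ZMod n₁ × ZMod n₂) :
    phi G s = 2 ↔ Admissible s n₁ (n₂ / n₁) := by
  classical
  obtain ⟨m, rfl⟩ := h₂
  have hm : 0 < m := Nat.pos_of_mul_pos_left h₃
  rw [Nat.mul_div_cancel_left _ (by omega)]
  -- the two descriptions of two element spanning sets
  have pair_iff : (∃ A : Finset G, A.card = 2 ∧ signedSumset s A = Set.univ) ↔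
      ∃ a b : ZMod n₁ × ZMod (n₁ * m), a ≠ b ∧
        ∀ g, ∃ x y : ℤ, |x| + |y| ≤ (s : ℤ) ∧ x • a + y • b = g := by
    constructor
    · rintro ⟨A, hA, hspan⟩
      obtain ⟨a, b, hab, rfl⟩ := Finset.card_eq_two.1 hA
      refine ⟨e a, e b, fun h => hab (e.injective h), fun g => ?_⟩
      have hg : e.symm g ∈ signedSumset s {a, b} := by rw [hspan]; trivial
      obtain ⟨c, hc1, hc2⟩ := hg
      rw [Finset.sum_pair hab] at hc1 hc2
      refine ⟨c a, c b, hc1, ?_⟩
      rw [← map_zsmul, ← map_zsmul, ← map_add, hc2, AddEquiv.apply_symm_apply]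
    · rintro ⟨a, b, hab, hspan⟩
      have hab' : e.symm a ≠ e.symm b := fun h => hab (e.symm.injective h)
      refine ⟨{e.symm a, e.symm b}, Finset.card_pair hab', ?_⟩
      rw [Set.eq_univ_iff_forall]
      intro g
      obtain ⟨x, y, hxy, hg⟩ := hspan (e g)
      refine ⟨fun z => if z = e.symm a then x else y, ?_, ?_⟩
      · rw [Finset.sum_pair hab']
        beta_reduce
        rw [if_pos rfl, if_neg (Ne.symm hab')]
        exact hxy
      · rw [Finset.sum_pair hab']
        beta_reduce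
        rw [if_pos rfl, if_neg (Ne.symm hab'), ← map_zsmul, ← map_zsmul,
          ← map_add, hg, AddEquiv.symm_apply_apply]
  -- no spanning set with fewer than two elements
  have no_small : ∀ k : ℕ, k < 2 → ¬ ∃ A : Finset G, A.card = k ∧ signedSumset s A = Set.univ := by
    intro k hk
    rintro ⟨A, hA, hspan⟩
    have hsub : ∃ a : G, A ⊆ {a} := by
      have : A.card ≤ 1 := by omega
      rw [Finset.card_le_one_iff_subset_singleton] at this
      exact this
    obtain ⟨a, ha⟩ := hsub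
    apply Helper15.RankTwo.no_single (n := n₁) (m := m) h₁ (a := e a)
    intro g
    have hg : e.symm g ∈ signedSumset s A := by rw [hspan]; trivial
    obtain ⟨c, _, hc2⟩ := hg
    rcases Finset.subset_singleton_iff.1 ha with h | h
    · rw [h, Finset.sum_empty] at hc2
      refine ⟨0, ?_⟩
      rw [zero_smul, ← e.apply_symm_apply g, ← hc2, map_zero]
    · rw [h, Finset.sum_singleton] at hc2
      refine ⟨c a, ?_⟩
      rw [← map_zsmul, hc2, AddEquiv.apply_symm_apply]
  have step : phi G s = 2 ↔ ∃ A : Finset G, A.card = 2 ∧ signedSumset s A = Set.univ := by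
    unfold phi
    constructor
    · intro h
      have hne : {k : ℕ | ∃ A : Finset G, A.card = k ∧ signedSumset s A = Set.univ}.Nonempty := by
        by_contra hcon
        rw [Set.not_nonempty_iff_eq_empty] at hcon
        rw [hcon, Nat.sInf_empty] at h
        omega
      have := Nat.sInf_mem hne
      rw [h] at this
      exact this
    · intro h
      apply le_antisymm
      · exact Nat.sInf_le h
      · by_contra hcon
        push Not at hcon
        have hne : {k : ℕ | ∃ A : Finset G, A.card = k ∧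
            signedSumset s A = Set.univ}.Nonempty := ⟨2, h⟩
        exact no_small _ hcon (Nat.sInf_mem hne)
  rw [step, pair_iff]
  constructor
  · rintro ⟨a, b, _, hspan⟩
    obtain ⟨u, v, hgen, hcov⟩ := Helper15.RankTwo.good_of_pair h₁ hspan
    exact admissible_of_cover h₁ hm hgen hcov
  · intro H
    obtain ⟨u, v, c, d, hdet, hcov⟩ := good_of_admissible h₁ hm H
    exact Helper15.RankTwo.pair_of_good h₁ hdet hcov

end Pool.Agent.Results.MP_b53101_co.RankTwo
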